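import Pool.Agent.Helper30.RSK.Whitney

/-!
A function most of whose mixed differences of order `k + 1` are small is close to a polynomial
of degree at most `k` at most points.
-/

namespace Pool.Agent.Helper30.RSK

open Finset

/-- the box of steps -/
def bx (n T : ℕ) : Finset (Fin n → ℕ) := Fintype.piFinset fun _ => range T

theorem mem_bx {n T : ℕ} {h : Fin n → ℕ} : h ∈ bx n T ↔ ∀ i, h i < T := by
  simp [bx]

theorem card_bx (n T : ℕ) : (bx n T).card = T ^ n := by
  simp [bx]

/-- the bad cubes -/
noncomputable def bad (n R : ℕ) (f : ℕ → ℝ) (δ : ℝ) : Finset (ℕ × (Fin n → ℕ)) :=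
  (range R ×ˢ bx n R).filter fun p => δ < |md univ f p.1 p.2|

theorem mem_bad {n R : ℕ} {f : ℕ → ℝ} {δ : ℝ} {y : ℕ} {h : Fin n → ℕ} :
    (y, h) ∈ bad n R f δ ↔ (y < R ∧ ∀ i, h i < R) ∧ δ < |md univ f y h| := by
  simp [bad, mem_bx]

/-! ### expansion of a cube with arbitrary steps into generic cubes -/

theorem p9_expand {n : ℕ} (f : ℕ → ℝ) (u g : Fin n → ℕ) (s : Finset (Fin n)) : ∀ y : ℕ,
    md univ f y u = ∑ S ∈ s.powerset, (-1 : ℝ) ^ S.card * md univ f (y + ∑ i ∈ S, u i)
      (fun i => if i ∈ s then (if i ∈ S then g i else u i + g i) else u i) := by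
  induction s using Finset.induction_on with
  | empty => intro y; simp
  | insert a s ha ih =>
    intro y
    rw [Finset.sum_powerset_insert ha, ← Finset.sum_add_distrib, ih y]
    refine Finset.sum_congr rfl fun S hS => ?_
    have hS' : a ∉ S := fun h' => ha (Finset.mem_powerset.1 hS h')
    rw [Finset.card_insert_of_notMem hS', Finset.sum_insert hS', pow_succ]
    obtain ⟨w, hw⟩ : ∃ w : Fin n → ℕ, w = fun i => if i ∈ s then (if i ∈ S then g i else
      u i + g i) else u i := ⟨_, rfl⟩
    have h1 := md_add (Finset.mem_univ a) f (y + ∑ i ∈ S, u i) (u a) (g a) w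
    have e1 : (fun i => if i ∈ s then (if i ∈ S then g i else u i + g i) else u i) =
        Function.update w a (u a) := by
      rw [← hw]
      rw [show u a = w a by rw [hw]; simp [ha], Function.update_eq_self]
    have e2 : (fun i => if i ∈ insert a s then (if i ∈ S then g i else u i + g i) else u i) =
        Function.update w a (u a + g a) := by
      funext i
      by_cases hi : i = a
      · subst hi; simp [hS']
      · rw [Function.update_of_ne hi, hw]
        simp [hi]
    have e3 : (fun i => if i ∈ insert a s then (if i ∈ insert a S then g i else u i + g i)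
        else u i) = Function.update w a (g a) := by
      funext i
      by_cases hi : i = a
      · subst hi; simp
      · rw [Function.update_of_ne hi, hw]
        simp [hi]
    rw [e1, e2, e3, h1]
    have e4 : y + (u a + ∑ i ∈ S, u i) = y + ∑ i ∈ S, u i + u a := by ring
    rw [e4]
    ring

/-- for arbitrary steps most base points are good -/
theorem p9_base {n : ℕ} (f : ℕ → ℝ) (R T : ℕ) (hR : (2 * n + 2) * T ≤ R) (δ : ℝ)
    (u : Fin n → ℕ) (hu : ∀ i, u i < T) :
    ((range ((n + 1) * T)).filter fun y => 2 ^ n * δ < |md univ f y u|).card * T ^ n ≤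
      2 ^ n * (bad n R f δ).card := by
  classical
  obtain ⟨Y, hY⟩ : ∃ Y : Finset ℕ, Y = (range ((n + 1) * T)).filter
    fun y => 2 ^ n * δ < |md univ f y u| := ⟨_, rfl⟩
  rw [← hY, ← card_bx, ← Finset.card_product]
  obtain ⟨w, hw⟩ : ∃ w : Finset (Fin n) → (Fin n → ℕ) → (Fin n → ℕ), w = fun S g i =>
    if i ∈ S then g i else u i + g i := ⟨_, rfl⟩
  have hsumle : ∀ S : Finset (Fin n), ∑ i ∈ S, u i ≤ n * T := by
    intro S
    have h1 : ∑ i ∈ S, u i ≤ S.card * T :=
      Finset.sum_le_card_nsmul _ _ _ fun j _ => (hu j).le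
    have h2 : S.card ≤ n := by
      have := Finset.card_le_univ S
      simpa using this
    exact le_trans h1 (Nat.mul_le_mul_right T h2)
  have hcov : Y ×ˢ bx n T ⊆ (univ : Finset (Finset (Fin n))).biUnion fun S =>
      (Y ×ˢ bx n T).filter fun p => (p.1 + ∑ i ∈ S, u i, w S p.2) ∈ bad n R f δ := by
    rintro ⟨y, g⟩ hp
    rw [Finset.mem_biUnion]
    have hp' := Finset.mem_product.1 hp
    have hy := hp'.1
    have hg := mem_bx.1 hp'.2
    rw [hY, Finset.mem_filter, Finset.mem_range] at hy
    simp only at hy hg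
    by_contra hcon
    push Not at hcon
    have hall : ∀ S : Finset (Fin n), |md univ f (y + ∑ i ∈ S, u i) (w S g)| ≤ δ := by
      intro S
      by_contra hc
      push Not at hc
      refine hcon S (Finset.mem_univ S) ?_
      rw [Finset.mem_filter]
      refine ⟨hp, mem_bad.2 ⟨⟨?_, ?_⟩, hc⟩⟩
      · have := hsumle S
        have e : (2 * n + 2) * T = (n + 1) * T + (n * T + T) := by ring
        omega
      · intro i
        have h1 := hu i
        have h2 := hg i
        have e : (2 * n + 2) * T = 2 * T + 2 * n * T := by ring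
        have : w S g i ≤ u i + g i := by
          rw [hw]; simp only; split_ifs <;> omega
        show w S g i < R
        omega
    have h1 := p9_expand f u g univ y
    have h2 : |md univ f y u| ≤ 2 ^ n * δ := by
      rw [h1]
      refine le_trans (Finset.abs_sum_le_sum_abs _ _) ?_
      have h3 : ∀ S ∈ (univ : Finset (Fin n)).powerset,
          |(-1 : ℝ) ^ S.card * md univ f (y + ∑ i ∈ S, u i)
            (fun i => if i ∈ (univ : Finset (Fin n)) then (if i ∈ S then g i else u i + g i)
              else u i)| ≤ δ := by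
        intro S _
        rw [abs_mul, abs_pow, abs_neg, abs_one, one_pow, one_mul]
        have e : (fun i => if i ∈ (univ : Finset (Fin n)) then (if i ∈ S then g i else
            u i + g i) else u i) = w S g := by
          rw [hw]; simp
        rw [e]; exact hall S
      refine le_trans (Finset.sum_le_card_nsmul _ _ _ h3) ?_
      simp
    linarith [hy.2]
  refine le_trans (Finset.card_le_card hcov) (le_trans Finset.card_biUnion_le ?_)
  have hcard : ∀ S ∈ (univ : Finset (Finset (Fin n))),
      ((Y ×ˢ bx n T).filter fun p => (p.1 + ∑ i ∈ S, u i, w S p.2) ∈ bad n R f δ).card ≤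
        (bad n R f δ).card := by
    intro S _
    refine Finset.card_le_card_of_injOn (fun p => (p.1 + ∑ i ∈ S, u i, w S p.2)) ?_ ?_
    · intro p hp
      exact (Finset.mem_filter.1 hp).2
    · rintro ⟨y, g⟩ _ ⟨y', g'⟩ _ he
      simp only [Prod.mk.injEq] at he
      obtain ⟨he1, he2⟩ := he
      have hy : y = y' := by omega
      have hg : g = g' := by
        funext i
        have := congrFun he2 i
        rw [hw] at this
        simp only at this
        split_ifs at this <;> omega
      rw [hy, hg]
  refine le_trans (Finset.sum_le_card_nsmul _ _ _ hcard) ?_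
  simp

/-! ### changing one step -/

/-- pairs for which changing the step `j` matters -/
noncomputable def pr1 (n T : ℕ) (f : ℕ → ℝ) (δ : ℝ) (x : ℕ) (j : Fin n) :
    Finset ((Fin n → ℕ) × (Fin n → ℕ)) :=
  (bx n T ×ˢ bx n T).filter fun p =>
    δ < |md univ f x p.1 - md univ f x (Function.update p.1 j (p.2 j))|

theorem p9_pr1 {n : ℕ} (f : ℕ → ℝ) (R T : ℕ) (hR : 2 * T ≤ R) (δ : ℝ) (x : ℕ) (hx : x < T)
    (j : Fin n) : (pr1 n T f δ x j).card * T ≤ 2 * ((bad n R f δ).card * T ^ n) := by
  classical
  obtain ⟨A, hA⟩ : ∃ A, A = (pr1 n T f δ x j).filter fun p => p.2 j ≤ p.1 j := ⟨_, rfl⟩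
  obtain ⟨B, hB⟩ : ∃ B, B = (pr1 n T f δ x j).filter fun p => ¬ p.2 j ≤ p.1 j := ⟨_, rfl⟩
  have hAB : (pr1 n T f δ x j).card = A.card + B.card := by
    rw [hA, hB, Finset.card_filter_add_card_filter_not]
  have key : ∀ (D : Finset ((Fin n → ℕ) × (Fin n → ℕ))) (φ : ((Fin n → ℕ) × (Fin n → ℕ)) →
      ℕ × (Fin n → ℕ)), D ⊆ pr1 n T f δ x j → (∀ p ∈ D, φ p ∈ bad n R f δ) →
      (∀ p ∈ D, ∀ p' ∈ D, φ p = φ p' → p.1 = p'.1 ∧ p.2 j = p'.2 j) →
      D.card * T ≤ (bad n R f δ).card * T ^ n := by
    intro D φ hD hφ hinj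
    have : D.card * T = (D ×ˢ range T).card := by simp
    rw [this, ← card_bx, ← Finset.card_product]
    refine Finset.card_le_card_of_injOn
      (fun q => (φ q.1, Function.update q.1.2 j q.2)) ?_ ?_
    · rintro ⟨p, b⟩ hq
      have hq' := Finset.mem_product.1 (Finset.mem_coe.1 hq)
      refine Finset.mem_coe.2 (Finset.mem_product.2 ⟨hφ p hq'.1, ?_⟩)
      rw [mem_bx]
      intro i
      have h2 := (Finset.mem_product.1 (Finset.mem_filter.1 (hD hq'.1)).1).2
      by_cases hi : i = j
      · subst hi; simpa using hq'.2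
      · simp only [Function.update_of_ne hi]
        exact mem_bx.1 h2 i
    · rintro ⟨p, b⟩ hq ⟨p', b'⟩ hq' he
      have hq1 := Finset.mem_product.1 (Finset.mem_coe.1 hq)
      have hq1' := Finset.mem_product.1 (Finset.mem_coe.1 hq')
      simp only [Prod.mk.injEq] at he
      obtain ⟨e1, e2⟩ := he
      obtain ⟨e3, e4⟩ := hinj p hq1.1 p' hq1'.1 e1
      have e5 : b = b' := by
        have := congrFun e2 j
        simpa using this
      have e6 : p.2 = p'.2 := by
        funext i
        by_cases hi : i = j
        · subst hi; exact e4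
        · have := congrFun e2 i
          simpa [Function.update_of_ne hi] using this
      rw [e5, Prod.ext e3 e6]
  have hAc := key A (fun p => (x + p.2 j, Function.update p.1 j (p.1 j - p.2 j)))
    (by rw [hA]; exact Finset.filter_subset _ _) (by
      intro p hp
      rw [hA, Finset.mem_filter] at hp
      obtain ⟨hp1, hp2⟩ := hp
      rw [pr1, Finset.mem_filter, Finset.mem_product, mem_bx, mem_bx] at hp1
      obtain ⟨⟨h1, h2⟩, h3⟩ := hp1
      rw [mem_bad]
      have e := md_add (Finset.mem_univ j) f x (p.2 j) (p.1 j - p.2 j) p.1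
      rw [Nat.add_sub_cancel' hp2, Function.update_eq_self] at e
      rw [e, add_sub_cancel_left] at h3
      refine ⟨⟨?_, fun i => ?_⟩, h3⟩
      · have := h2 j; omega
      · by_cases hi : i = j
        · subst hi
          simp only [Function.update_self]
          have := h1 i; omega
        · rw [Function.update_of_ne hi]
          have := h1 i; omega) (by
      intro p hp p' hp' he
      rw [hA, Finset.mem_filter] at hp hp'
      simp only [Prod.mk.injEq] at he
      obtain ⟨e1, e2⟩ := he
      have e3 : p.2 j = p'.2 j := by omega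
      refine ⟨?_, e3⟩
      funext i
      by_cases hi : i = j
      · subst hi
        have := congrFun e2 i
        simp only [Function.update_self] at this
        have h1 := hp.2
        have h2 := hp'.2
        omega
      · have := congrFun e2 i
        simpa [Function.update_of_ne hi] using this)
  have hBc := key B (fun p => (x + p.1 j, Function.update p.1 j (p.2 j - p.1 j)))
    (by rw [hB]; exact Finset.filter_subset _ _) (by
      intro p hp
      rw [hB, Finset.mem_filter] at hp
      obtain ⟨hp1, hp2⟩ := hp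
      rw [pr1, Finset.mem_filter, Finset.mem_product, mem_bx, mem_bx] at hp1
      obtain ⟨⟨h1, h2⟩, h3⟩ := hp1
      rw [mem_bad]
      have e := md_add (Finset.mem_univ j) f x (p.1 j) (p.2 j - p.1 j) p.1
      rw [Nat.add_sub_cancel' (by omega), Function.update_eq_self] at e
      rw [e, sub_add_cancel_left, abs_neg] at h3
      refine ⟨⟨?_, fun i => ?_⟩, h3⟩
      · have := h1 j; omega
      · by_cases hi : i = j
        · subst hi
          simp only [Function.update_self]
          have := h2 i; omega
        · rw [Function.update_of_ne hi]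
          have := h1 i; omega) (by
      intro p hp p' hp' he
      rw [hB, Finset.mem_filter] at hp hp'
      simp only [Prod.mk.injEq] at he
      obtain ⟨e1, e2⟩ := he
      have e3 : p.1 j = p'.1 j := by omega
      have h1 := hp.2
      have h2 := hp'.2
      have e4 : p.2 j - p.1 j = p'.2 j - p'.1 j := by
        have := congrFun e2 j
        simpa using this
      refine ⟨?_, by omega⟩
      funext i
      by_cases hi : i = j
      · subst hi; exact e3
      · have := congrFun e2 i
        simpa [Function.update_of_ne hi] using this)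
  rw [hAB]
  nlinarith

/-- hybrids of two vectors -/
def hyb {n : ℕ} (j : ℕ) (h h' : Fin n → ℕ) : Fin n → ℕ := fun i => if i.val < j then h' i else h i

/-- most pairs of step vectors give the same difference -/
theorem p9_pairs {n : ℕ} (f : ℕ → ℝ) (R T : ℕ) (hR : 2 * T ≤ R) (δ : ℝ) (x : ℕ) (hx : x < T) :
    ((bx n T ×ˢ bx n T).filter fun p => n * δ < |md univ f x p.1 - md univ f x p.2|).card * T ≤
      n * (2 * ((bad n R f δ).card * T ^ n)) := by
  classical
  have hcov : ((bx n T ×ˢ bx n T).filter
      fun p => n * δ < |md univ f x p.1 - md univ f x p.2|) ⊆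
      (univ : Finset (Fin n)).biUnion fun j => (bx n T ×ˢ bx n T).filter fun p =>
        (hyb j p.1 p.2, hyb j p.2 p.1) ∈ pr1 n T f δ x j := by
    rintro ⟨h, h'⟩ hp
    rw [Finset.mem_filter, Finset.mem_product, mem_bx, mem_bx] at hp
    obtain ⟨⟨h1, h2⟩, h3⟩ := hp
    rw [Finset.mem_biUnion]
    by_contra hcon
    push Not at hcon
    simp only at h1 h2 h3
    have hstep : ∀ j < n, |md univ f x (hyb j h h') - md univ f x (hyb (j + 1) h h')| ≤ δ := by
      intro j hj
      by_contra hc
      push Not at hc
      refine hcon ⟨j, hj⟩ (Finset.mem_univ _) ?_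
      rw [Finset.mem_filter]
      refine ⟨Finset.mem_product.2 ⟨mem_bx.2 h1, mem_bx.2 h2⟩, ?_⟩
      rw [pr1, Finset.mem_filter]
      refine ⟨Finset.mem_product.2 ⟨mem_bx.2 fun i => ?_, mem_bx.2 fun i => ?_⟩, ?_⟩
      · simp only [hyb]; split_ifs
        · exact h2 i
        · exact h1 i
      · simp only [hyb]; split_ifs
        · exact h1 i
        · exact h2 i
      · simp only
        have e : Function.update (hyb j h h') ⟨j, hj⟩ (hyb j h' h ⟨j, hj⟩) =
            hyb (j + 1) h h' := by
          funext i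
          by_cases hi : i = ⟨j, hj⟩
          · subst hi; simp [hyb]
          · rw [Function.update_of_ne hi]
            have hi' : i.val ≠ j := fun hh => hi (Fin.ext hh)
            simp only [hyb]
            by_cases hij : i.val < j
            · rw [if_pos hij, if_pos (by omega)]
            · rw [if_neg hij, if_neg (by omega)]
        rw [e]; exact hc
    have htel : ∀ j ≤ n, |md univ f x (hyb 0 h h') - md univ f x (hyb j h h')| ≤ j * δ := by
      intro j
      induction j with
      | zero => intro _; simp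
      | succ j ih =>
        intro hj
        have q1 := ih (by omega)
        have q2 := hstep j (by omega)
        have e : md univ f x (hyb 0 h h') - md univ f x (hyb (j + 1) h h') =
            (md univ f x (hyb 0 h h') - md univ f x (hyb j h h')) +
            (md univ f x (hyb j h h') - md univ f x (hyb (j + 1) h h')) := by ring
        rw [e]
        refine le_trans (abs_add_le _ _) ?_
        push_cast
        linarith
    have q3 := htel n le_rfl
    have e0 : hyb 0 h h' = h := by funext i; simp [hyb]
    have e1 : hyb n h h' = h' := by funext i; simp [hyb]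
    rw [e0, e1] at q3
    linarith
  refine le_trans (Nat.mul_le_mul_right T (le_trans (Finset.card_le_card hcov)
    Finset.card_biUnion_le)) ?_
  rw [Finset.sum_mul]
  have hc : ∀ j ∈ (univ : Finset (Fin n)), ((bx n T ×ˢ bx n T).filter fun p =>
      (hyb j p.1 p.2, hyb j p.2 p.1) ∈ pr1 n T f δ x j).card * T ≤
      2 * ((bad n R f δ).card * T ^ n) := by
    intro j _
    refine le_trans (Nat.mul_le_mul_right T ?_) (p9_pr1 f R T hR δ x hx j)
    refine Finset.card_le_card_of_injOn (fun p => (hyb j p.1 p.2, hyb j p.2 p.1)) ?_ ?_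
    · intro p hp
      exact (Finset.mem_filter.1 (Finset.mem_coe.1 hp)).2
    · rintro ⟨h, h'⟩ _ ⟨g, g'⟩ _ he
      simp only [Prod.mk.injEq] at he
      obtain ⟨e1, e2⟩ := he
      have : ∀ i, h i = g i ∧ h' i = g' i := by
        intro i
        have a1 := congrFun e1 i
        have a2 := congrFun e2 i
        simp only [hyb] at a1 a2
        split_ifs at a1 a2
        · exact ⟨a2, a1⟩
        · exact ⟨a1, a2⟩
      rw [Prod.mk.injEq]
      exact ⟨funext fun i => (this i).1, funext fun i => (this i).2⟩
  refine le_trans (Finset.sum_le_card_nsmul _ _ _ hc) ?_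
  simp

/-- a typical step vector -/
theorem p9_typical {n : ℕ} (f : ℕ → ℝ) (R T : ℕ) (hT : 1 ≤ T) (hR : 2 * T ≤ R) (δ : ℝ) (x : ℕ)
    (hx : x < T) : ∃ g ∈ bx n T,
      ((bx n T).filter fun h => n * δ < |md univ f x g - md univ f x h|).card * T ≤
        2 * n * (bad n R f δ).card := by
  classical
  by_contra hcon
  push Not at hcon
  have h1 := p9_pairs (n := n) f R T hR δ x hx
  have hpair : ((bx n T ×ˢ bx n T).filter
      fun p => n * δ < |md univ f x p.1 - md univ f x p.2|).card =
      ∑ g ∈ bx n T, ((bx n T).filter fun h => n * δ < |md univ f x g - md univ f x h|).card := by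
    rw [Finset.card_filter, Finset.sum_product]
    refine Finset.sum_congr rfl fun g _ => ?_
    rw [Finset.card_filter]
  rw [hpair, Finset.sum_mul] at h1
  have hne : (bx n T).Nonempty := by
    rw [← Finset.card_pos, card_bx]
    exact Nat.pow_pos (by omega)
  have h2 : ∑ g ∈ bx n T, 2 * n * (bad n R f δ).card <
      ∑ g ∈ bx n T, ((bx n T).filter fun h => n * δ <
        |md univ f x g - md univ f x h|).card * T :=
    Finset.sum_lt_sum_of_nonempty hne fun g hg => hcon g hg
  rw [Finset.sum_const, smul_eq_mul, card_bx] at h2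
  have e : T ^ n * (2 * n * (bad n R f δ).card) = n * (2 * ((bad n R f δ).card * T ^ n)) := by
    ring
  rw [e] at h2
  exact absurd h1 (not_le.2 h2)

/-- exchange of the two cubes -/
theorem p9_exch {n : ℕ} (f : ℕ → ℝ) (x : ℕ) (u h : Fin n → ℕ) :
    md univ (fun y => f y - md univ f y h) x u =
      -∑ A ∈ (univ : Finset (Fin n)).powerset.erase ∅, (-1 : ℝ) ^ A.card *
        md univ f (x + ∑ i ∈ A, h i) u := by
  classical
  have h1 : ∀ y, f y - md univ f y h = -∑ A ∈ (univ : Finset (Fin n)).powerset.erase ∅,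
      (-1 : ℝ) ^ A.card * f (y + ∑ i ∈ A, h i) := by
    intro y
    have h2 : md univ f y h = f y + ∑ A ∈ (univ : Finset (Fin n)).powerset.erase ∅,
        (-1 : ℝ) ^ A.card * f (y + ∑ i ∈ A, h i) := by
      unfold md
      rw [← Finset.add_sum_erase _ _ (Finset.empty_mem_powerset (univ : Finset (Fin n)))]
      simp
    rw [h2]; ring
  have h3 : (fun y => f y - md univ f y h) = fun y => (0 : ℝ) -
      ∑ A ∈ (univ : Finset (Fin n)).powerset.erase ∅,
        (-1 : ℝ) ^ A.card * f (y + ∑ i ∈ A, h i) := by
    funext y; rw [h1 y, zero_sub]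
  rw [h3, md_sub, md_sum]
  have h4 : md (univ : Finset (Fin n)) (fun _ => (0 : ℝ)) x u = 0 := by simp [md]
  rw [h4, zero_sub]
  congr 1
  refine Finset.sum_congr rfl fun A _ => ?_
  rw [md_smul, md_shift]

/-- sampling of a point of a cube -/
theorem p9_sample {n : ℕ} (T : ℕ) (Y : Finset ℕ) (x : ℕ) (A : Finset (Fin n))
    (hA : A.Nonempty) :
    ((bx n T).filter fun h => x + ∑ i ∈ A, h i ∈ Y).card * T ≤ Y.card * T ^ n := by
  classical
  obtain ⟨i0, hi0⟩ := hA
  have : ((bx n T).filter fun h => x + ∑ i ∈ A, h i ∈ Y).card * T =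
      (((bx n T).filter fun h => x + ∑ i ∈ A, h i ∈ Y) ×ˢ range T).card := by simp
  rw [this, ← card_bx, ← Finset.card_product]
  refine Finset.card_le_card_of_injOn
    (fun q => (x + ∑ i ∈ A, q.1 i, Function.update q.1 i0 q.2)) ?_ ?_
  · rintro ⟨h, b⟩ hq
    have hq' := Finset.mem_product.1 (Finset.mem_coe.1 hq)
    have h1 := Finset.mem_filter.1 hq'.1
    refine Finset.mem_coe.2 (Finset.mem_product.2 ⟨h1.2, ?_⟩)
    rw [mem_bx]
    intro i
    by_cases hi : i = i0
    · subst hi; simpa using hq'.2
    · simp only [Function.update_of_ne hi]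
      exact mem_bx.1 h1.1 i
  · rintro ⟨h, b⟩ _ ⟨h', b'⟩ _ he
    simp only [Prod.mk.injEq] at he
    obtain ⟨e1, e2⟩ := he
    have e3 : b = b' := by
      have := congrFun e2 i0
      simpa using this
    have e4 : ∀ i, i ≠ i0 → h i = h' i := by
      intro i hi
      have := congrFun e2 i
      simpa [Function.update_of_ne hi] using this
    have e5 : ∑ i ∈ A, h i = ∑ i ∈ A, h' i := by omega
    rw [← Finset.add_sum_erase _ _ hi0, ← Finset.add_sum_erase (a := i0) _ _ hi0] at e5
    have e6 : ∑ i ∈ A.erase i0, h i = ∑ i ∈ A.erase i0, h' i :=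
      Finset.sum_congr rfl fun i hi => e4 i (Finset.ne_of_mem_erase hi)
    have e7 : h i0 = h' i0 := by omega
    rw [Prod.mk.injEq]
    refine ⟨funext fun i => ?_, e3⟩
    by_cases hi : i = i0
    · rw [hi]; exact e7
    · exact e4 i hi

/-- self-correction -/
theorem p9_self {n : ℕ} (f : ℕ → ℝ) (R T : ℕ) (hT : 1 ≤ T) (hR : (2 * n + 2) * T ≤ R) (δ : ℝ)
    (hδ : 0 ≤ δ) (hs : (2 ^ n * (2 * n) + 2 ^ n * 2 ^ n + 4 * n + 1) * (bad n R f δ).card <
      T ^ (n + 1)) :
    ∃ F : ℕ → ℝ, ((range T).filter fun x => (n + 1) * δ < |f x - F x|).card * T ^ n ≤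
        2 * (bad n R f δ).card ∧
      ∀ x (u : Fin n → ℕ), x + ∑ i, u i < T →
        |md univ F x u| ≤ 2 ^ n * (n + 2 ^ n) * δ := by
  classical
  have hR2 : 2 * T ≤ R := by
    have : (2 * n + 2) * T = 2 * T + 2 * n * T := by ring
    omega
  have hT0 : 0 < T := hT
  have hpow : T ^ (n + 1) = T ^ n * T := pow_succ T n
  choose! G hG1 hG2 using fun x hx => p9_typical (n := n) f R T hT hR2 δ x hx
  obtain ⟨F, hF⟩ : ∃ F : ℕ → ℝ, F = fun x => f x - md univ f x (G x) := ⟨_, rfl⟩
  obtain ⟨b, hb⟩ : ∃ b, b = (bad n R f δ).card := ⟨_, rfl⟩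
  rw [← hb] at hs hG2 ⊢
  refine ⟨F, ?_, ?_⟩
  · -- most points are unchanged
    obtain ⟨Z, hZ⟩ : ∃ Z, Z = (range T).filter fun x => (n + 1) * δ < |f x - F x| := ⟨_, rfl⟩
    rw [← hZ]
    have h1 : ∀ x ∈ Z, T ^ n ≤ 2 * ((bx n T).filter fun h => δ < |md univ f x h|).card := by
      intro x hx
      rw [hZ, Finset.mem_filter, Finset.mem_range] at hx
      have h2 := hG2 x hx.1
      have h3 : (bx n T).filter (fun h => ¬ n * δ < |md univ f x (G x) - md univ f x h|) ⊆
          (bx n T).filter fun h => δ < |md univ f x h| := by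
        intro h hh
        rw [Finset.mem_filter] at hh ⊢
        refine ⟨hh.1, ?_⟩
        have h4 := hx.2
        rw [hF] at h4
        simp only [sub_sub_cancel] at h4
        have h5 := not_lt.1 hh.2
        have h6 : |md univ f x (G x)| ≤ |md univ f x (G x) - md univ f x h| +
            |md univ f x h| := by
          have := abs_add_le (md univ f x (G x) - md univ f x h) (md univ f x h)
          simpa using this
        linarith
      have h7 := Finset.card_le_card h3
      have h8 := Finset.card_filter_add_card_filter_not (s := bx n T)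
        (fun h => n * δ < |md univ f x (G x) - md univ f x h|)
      rw [card_bx] at h8
      obtain ⟨c, hc⟩ : ∃ c, c = ((bx n T).filter fun h =>
        n * δ < |md univ f x (G x) - md univ f x h|).card := ⟨_, rfl⟩
      rw [← hc] at h8 h2
      have h9 : 2 * c ≤ T ^ n := by
        by_contra hcon
        push Not at hcon
        have h10 : T ^ n * T < 2 * c * T := Nat.mul_lt_mul_of_pos_right hcon hT0
        have h11 : 2 * c * T ≤ 2 * (2 * n * b) := by
          calc 2 * c * T = 2 * (c * T) := by ring
            _ ≤ 2 * (2 * n * b) := Nat.mul_le_mul_left 2 h2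
        have h12 : (2 ^ n * (2 * n) + 2 ^ n * 2 ^ n + 4 * n + 1) * b =
            2 * (2 * n * b) + (2 ^ n * (2 * n) + 2 ^ n * 2 ^ n + 1) * b := by ring
        rw [hpow] at hs
        omega
      omega
    have h2 : Z.card * T ^ n ≤ 2 * ∑ x ∈ Z, ((bx n T).filter fun h =>
        δ < |md univ f x h|).card := by
      rw [Finset.mul_sum, ← smul_eq_mul, ← Finset.sum_const]
      exact Finset.sum_le_sum h1
    have h3 : ∑ x ∈ Z, ((bx n T).filter fun h => δ < |md univ f x h|).card ≤ b := by
      have h4 : ∑ x ∈ Z, ((bx n T).filter fun h => δ < |md univ f x h|).card =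
          ((Z ×ˢ bx n T).filter fun p => δ < |md univ f p.1 p.2|).card := by
        rw [Finset.card_filter, Finset.sum_product]
        refine Finset.sum_congr rfl fun x _ => ?_
        rw [Finset.card_filter]
      rw [h4, hb]
      refine Finset.card_le_card fun p hp => ?_
      rw [Finset.mem_filter, Finset.mem_product] at hp
      have h5 := hp.1.1
      rw [hZ, Finset.mem_filter, Finset.mem_range] at h5
      have h6 := mem_bx.1 hp.1.2
      obtain ⟨p1, p2⟩ := p
      refine mem_bad.2 ⟨⟨by simp only at h5; omega, fun i => ?_⟩, hp.2⟩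
      have := h6 i
      simp only at this
      omega
    omega
  · -- all cubes of `F` are small
    intro x u hxu
    have hui : ∀ i, u i < T := fun i => by
      have : u i ≤ ∑ j, u j := Finset.single_le_sum (f := fun j => u j)
        (fun _ _ => Nat.zero_le _) (Finset.mem_univ i)
      omega
    have hxA : ∀ A : Finset (Fin n), x + ∑ i ∈ A, u i < T := fun A => by
      have := Finset.sum_le_sum_of_subset (f := u) (Finset.subset_univ A)
      omega
    obtain ⟨Y, hY⟩ : ∃ Y : Finset ℕ, Y = (range ((n + 1) * T)).filter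
      fun y => 2 ^ n * δ < |md univ f y u| := ⟨_, rfl⟩
    have hYc := p9_base f R T hR δ u hui
    rw [← hY, ← hb] at hYc
    obtain ⟨W1, hW1⟩ : ∃ W1 : Finset (Fin n) → Finset (Fin n → ℕ), W1 = fun A =>
      (bx n T).filter fun h => n * δ < |md univ f (x + ∑ i ∈ A, u i) (G (x + ∑ i ∈ A, u i)) -
        md univ f (x + ∑ i ∈ A, u i) h| := ⟨_, rfl⟩
    obtain ⟨W2, hW2⟩ : ∃ W2 : Finset (Fin n) → Finset (Fin n → ℕ), W2 = fun A =>
      if A.Nonempty then (bx n T).filter fun h => x + ∑ i ∈ A, h i ∈ Y else ∅ := ⟨_, rfl⟩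
    have hW1c : ∀ A, (W1 A).card * T ≤ 2 * n * b := fun A => by
      rw [hW1]; exact hG2 _ (hxA A)
    have hW2c : ∀ A, (W2 A).card * T ≤ 2 ^ n * b := fun A => by
      rw [hW2]
      simp only
      split_ifs with hA
      · have h1 := p9_sample T Y x A hA
        omega
      · simp
    have hex : ∃ h ∈ bx n T, (∀ A, h ∉ W1 A) ∧ ∀ A, h ∉ W2 A := by
      by_contra hcon
      push Not at hcon
      have hcov : bx n T ⊆ (univ : Finset (Finset (Fin n))).biUnion fun A => W1 A ∪ W2 A := by
        intro h hh
        rw [Finset.mem_biUnion]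
        by_cases h1 : ∀ A, h ∉ W1 A
        · obtain ⟨A, hA⟩ := hcon h hh h1
          exact ⟨A, Finset.mem_univ _, Finset.mem_union_right _ hA⟩
        · push Not at h1
          obtain ⟨A, hA⟩ := h1
          exact ⟨A, Finset.mem_univ _, Finset.mem_union_left _ hA⟩
      have h1 := le_trans (Finset.card_le_card hcov) Finset.card_biUnion_le
      rw [card_bx] at h1
      have h2 : (∑ A : Finset (Fin n), (W1 A ∪ W2 A).card) * T ≤
          ∑ A : Finset (Fin n), (2 * n * b + 2 ^ n * b) := by
        rw [Finset.sum_mul]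
        refine Finset.sum_le_sum fun A _ => ?_
        have h3 := Finset.card_union_le (W1 A) (W2 A)
        have h4 : (W1 A ∪ W2 A).card * T ≤ (W1 A).card * T + (W2 A).card * T := by
          rw [← Nat.add_mul]; exact Nat.mul_le_mul_right T h3
        have h5 := hW1c A
        have h6 := hW2c A
        omega
      rw [Finset.sum_const, smul_eq_mul, Finset.card_univ, Fintype.card_finset,
        Fintype.card_fin] at h2
      have h3 : T ^ n * T ≤ 2 ^ n * (2 * n * b + 2 ^ n * b) :=
        le_trans (Nat.mul_le_mul_right T h1) h2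
      have h4 : (2 ^ n * (2 * n) + 2 ^ n * 2 ^ n + 4 * n + 1) * b =
          2 ^ n * (2 * n * b + 2 ^ n * b) + (4 * n + 1) * b := by ring
      rw [hpow] at hs
      omega
    obtain ⟨h, hh, hh1, hh2⟩ := hex
    have hhT := mem_bx.1 hh
    have e1 : md univ F x u = md univ (fun y => f y - md univ f y h) x u +
        md univ (fun y => md univ f y h - md univ f y (G y)) x u := by
      unfold md
      rw [← Finset.sum_add_distrib]
      refine Finset.sum_congr rfl fun A _ => ?_
      rw [hF]
      unfold md
      ring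
    have b1 : |md univ (fun y => md univ f y h - md univ f y (G y)) x u| ≤ 2 ^ n * (n * δ) := by
      unfold md
      refine le_trans (Finset.abs_sum_le_sum_abs _ _) ?_
      have : ∀ A ∈ (univ : Finset (Fin n)).powerset, |(-1 : ℝ) ^ A.card *
          (∑ B ∈ (univ : Finset (Fin n)).powerset, (-1 : ℝ) ^ B.card *
            f (x + ∑ a ∈ A, u a + ∑ a ∈ B, h a) -
          ∑ B ∈ (univ : Finset (Fin n)).powerset, (-1 : ℝ) ^ B.card *
            f (x + ∑ a ∈ A, u a + ∑ a ∈ B, G (x + ∑ a ∈ A, u a) a))| ≤ n * δ := by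
        intro A _
        rw [abs_mul, abs_pow, abs_neg, abs_one, one_pow, one_mul]
        have h1 := hh1 A
        rw [hW1] at h1
        simp only [Finset.mem_filter, not_and, not_lt] at h1
        have h2 := h1 hh
        rw [abs_sub_comm] at h2
        unfold md at h2
        exact h2
      refine le_trans (Finset.sum_le_card_nsmul _ _ _ this) ?_
      simp
    have b2 : |md univ (fun y => f y - md univ f y h) x u| ≤ 2 ^ n * (2 ^ n * δ) := by
      rw [p9_exch, abs_neg]
      refine le_trans (Finset.abs_sum_le_sum_abs _ _) ?_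
      have : ∀ A ∈ (univ : Finset (Fin n)).powerset.erase ∅, |(-1 : ℝ) ^ A.card *
          md univ f (x + ∑ i ∈ A, h i) u| ≤ 2 ^ n * δ := by
        intro A hA
        rw [abs_mul, abs_pow, abs_neg, abs_one, one_pow, one_mul]
        have hA0 : A.Nonempty := Finset.nonempty_iff_ne_empty.2 (Finset.ne_of_mem_erase hA)
        have h1 := hh2 A
        rw [hW2] at h1
        simp only [hA0, if_true, Finset.mem_filter, not_and] at h1
        have h2 := h1 hh
        rw [hY, Finset.mem_filter, Finset.mem_range, not_and, not_lt] at h2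
        refine h2 ?_
        have h3 : ∑ i ∈ A, h i ≤ A.card * T :=
          Finset.sum_le_card_nsmul _ _ _ fun i _ => (hhT i).le
        have h4 : A.card ≤ n := by
          have := Finset.card_le_univ A
          simpa using this
        have h5 : A.card * T ≤ n * T := Nat.mul_le_mul_right T h4
        have h6 := hxA ∅
        simp only [Finset.sum_empty, add_zero] at h6
        have h7 : (n + 1) * T = n * T + T := by ring
        omega
      have h2 : ((univ : Finset (Fin n)).powerset.erase ∅).card ≤ 2 ^ n := by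
        refine le_trans (Finset.card_erase_le) ?_
        simp
      refine le_trans (Finset.sum_le_card_nsmul _ _ _ this) ?_
      rw [nsmul_eq_mul]
      refine mul_le_mul_of_nonneg_right ?_ (by positivity)
      exact_mod_cast h2
    rw [e1]
    refine le_trans (abs_add_le _ _) ?_
    have : (2 : ℝ) ^ n * (n + 2 ^ n) * δ = 2 ^ n * (2 ^ n * δ) + 2 ^ n * (n * δ) := by ring
    rw [this]
    exact add_le_add b2 b1

/-- mixed differences with steps indexed by `Fin n` or by `range n` -/
theorem md_fin (n : ℕ) (f : ℕ → ℝ) (x : ℕ) (u : ℕ → ℕ) :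
    md (range n) f x u = md (univ : Finset (Fin n)) f x (fun i => u i) := by
  classical
  have key : ∀ s : Finset (Fin n), ∀ y, md (s.map Fin.valEmbedding) f y u =
      md s f y (fun i => u i) := by
    intro s
    induction s using Finset.induction_on with
    | empty => intro y; simp [md]
    | insert a s ha ih =>
      intro y
      rw [md_insert ha, Finset.map_insert, md_insert (by
        intro h
        rw [Finset.mem_map] at h
        obtain ⟨b, hb, hba⟩ := h
        exact ha (by rwa [← Fin.valEmbedding.injective hba])), ih, ih]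
      rfl
  have h1 := key univ x
  have h2 : (univ : Finset (Fin n)).map Fin.valEmbedding = range n := by
    ext i
    simp only [Finset.mem_map, Finset.mem_univ, true_and, Fin.valEmbedding_apply,
      Finset.mem_range]
    exact ⟨fun ⟨a, ha⟩ => by rw [← ha]; exact a.2, fun h => ⟨⟨i, h⟩, rfl⟩⟩
  rw [h2] at h1
  exact h1

/-- MAIN LEMMA. A function most of whose mixed differences of order `k + 1` are small is close to
a polynomial of degree at most `k` at most points. -/
theorem poly99 (k : ℕ) : ∃ C : ℕ, 1 ≤ C ∧ ∀ (f : ℕ → ℝ) (T R : ℕ) (δ : ℝ), 0 ≤ δ → 1 ≤ T →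
    (2 * k + 4) * T ≤ R → ∃ P : Polynomial ℝ, P.natDegree ≤ k ∧
      ((range T).filter fun x => C * δ < |f x - P.eval (x : ℝ)|).card * T ^ (k + 1) ≤
        C * ((range R ×ˢ Fintype.piFinset fun _ : Fin (k + 1) => range R).filter
          fun p => δ < |∑ A : Finset (Fin (k + 1)), (-1 : ℝ) ^ A.card *
            f (p.1 + ∑ a ∈ A, p.2 a)|).card := by
  classical
  obtain ⟨C0, hC0, hwh⟩ := whitney k
  obtain ⟨n, hn⟩ : ∃ n, n = k + 1 := ⟨_, rfl⟩
  obtain ⟨D, hD⟩ : ∃ D : ℝ, D = C0 * (2 ^ n * (n + 2 ^ n)) + (n + 1) := ⟨_, rfl⟩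
  obtain ⟨E, hE⟩ : ∃ E : ℕ, E = 2 ^ n * (2 * n) + 2 ^ n * 2 ^ n + 4 * n + 1 := ⟨_, rfl⟩
  refine ⟨⌈D⌉₊ + E + 2, by omega, fun f T R δ hδ hT hR => ?_⟩
  have hbad : (range R ×ˢ Fintype.piFinset fun _ : Fin (k + 1) => range R).filter
      (fun p => δ < |∑ A : Finset (Fin (k + 1)), (-1 : ℝ) ^ A.card *
        f (p.1 + ∑ a ∈ A, p.2 a)|) = bad (k + 1) R f δ := by
    unfold bad bx md
    simp only [Finset.powerset_univ]
  rw [hbad, ← hn]
  obtain ⟨b, hb⟩ : ∃ b, b = (bad n R f δ).card := ⟨_, rfl⟩
  rw [← hb]
  by_cases hs : E * b < T ^ (n + 1)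
  · rw [hb, hE] at hs
    obtain ⟨F, hF1, hF2⟩ := p9_self f R T hT (by
      rw [hn]
      have : 2 * (k + 1) + 2 = 2 * k + 4 := by ring
      rw [this]; exact hR) δ hδ hs
    rw [← hb] at hF1
    obtain ⟨P, hP1, hP2⟩ := hwh (T - 1) F (2 ^ n * (n + 2 ^ n) * δ) (by positivity) (by
      intro x u hx
      rw [← hn] at hx ⊢
      rw [md_fin]
      refine hF2 x (fun i => u i) ?_
      rw [← Finset.sum_range (f := fun i => u i)]
      omega)
    refine ⟨P, hP1, ?_⟩
    have hsub : (range T).filter (fun x => ((⌈D⌉₊ + E + 2 : ℕ) : ℝ) * δ <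
        |f x - P.eval (x : ℝ)|) ⊆ (range T).filter fun x => (n + 1) * δ < |f x - F x| := by
      intro x hx
      rw [Finset.mem_filter, Finset.mem_range] at hx ⊢
      refine ⟨hx.1, ?_⟩
      have h1 := hP2 x (by omega)
      have h2 : |f x - P.eval (x : ℝ)| ≤ |f x - F x| + |F x - P.eval (x : ℝ)| := by
        have := abs_add_le (f x - F x) (F x - P.eval (x : ℝ))
        simpa using this
      have h3 : D * δ ≤ ((⌈D⌉₊ + E + 2 : ℕ) : ℝ) * δ := by
        refine mul_le_mul_of_nonneg_right ?_ hδ
        have := Nat.le_ceil D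
        push_cast
        have h4 : (0 : ℝ) ≤ (E : ℝ) := Nat.cast_nonneg E
        linarith
      have h5 : D * δ = C0 * (2 ^ n * (n + 2 ^ n) * δ) + (n + 1) * δ := by
        rw [hD]; ring
      linarith [hx.2]
    refine le_trans (Nat.mul_le_mul_right _ (Finset.card_le_card hsub)) (le_trans hF1 ?_)
    exact Nat.mul_le_mul_right b (by omega)
  · refine ⟨0, by simp, ?_⟩
    push Not at hs
    have h1 : ((range T).filter fun x => ((⌈D⌉₊ + E + 2 : ℕ) : ℝ) * δ <
        |f x - Polynomial.eval (x : ℝ) 0|).card ≤ T := by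
      refine le_trans (Finset.card_filter_le _ _) ?_
      simp
    calc _ ≤ T * T ^ n := Nat.mul_le_mul_right _ h1
      _ = T ^ (n + 1) := by rw [pow_succ]; ring
      _ ≤ E * b := hs
      _ ≤ _ := Nat.mul_le_mul_right b (by omega)

end Pool.Agent.Helper30.RSK
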