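import Mathlib

/-!
Mixed differences on intervals of integers: a function all of whose mixed differences of order
`k + 1` are small is close to a polynomial of degree at most `k` (a discrete Whitney inequality).
-/

namespace Pool.Agent.Helper30.RSK

open Finset

/-- mixed difference of the function `f` at `x` with the steps `h i`, `i ∈ s` -/
noncomputable def md {ι : Type*} (s : Finset ι) (f : ℕ → ℝ) (x : ℕ) (h : ι → ℕ) : ℝ :=
  ∑ A ∈ s.powerset, (-1 : ℝ) ^ A.card * f (x + ∑ a ∈ A, h a)

section basic

variable {ι : Type*}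

theorem md_empty (f : ℕ → ℝ) (x : ℕ) (h : ι → ℕ) : md ∅ f x h = f x := by
  simp [md]

theorem md_insert [DecidableEq ι] {s : Finset ι} {a : ι} (ha : a ∉ s) (f : ℕ → ℝ) (x : ℕ)
    (h : ι → ℕ) : md (insert a s) f x h = md s f x h - md s f (x + h a) h := by
  unfold md
  rw [Finset.sum_powerset_insert ha, sub_eq_add_neg, ← Finset.sum_neg_distrib]
  congr 1
  refine Finset.sum_congr rfl fun A hA => ?_
  have hA' : a ∉ A := fun h' => ha (Finset.mem_powerset.1 hA h')
  rw [Finset.card_insert_of_notMem hA', Finset.sum_insert hA', pow_succ]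
  have : x + (h a + ∑ i ∈ A, h i) = x + h a + ∑ i ∈ A, h i := by ring
  rw [this]
  ring

theorem md_congr {s : Finset ι} (f : ℕ → ℝ) (x : ℕ) {h h' : ι → ℕ}
    (hh : ∀ i ∈ s, h i = h' i) : md s f x h = md s f x h' := by
  unfold md
  refine Finset.sum_congr rfl fun A hA => ?_
  have : ∑ a ∈ A, h a = ∑ a ∈ A, h' a :=
    Finset.sum_congr rfl fun a ha => hh a (Finset.mem_powerset.1 hA ha)
  rw [this]

theorem md_sub (s : Finset ι) (f g : ℕ → ℝ) (x : ℕ) (h : ι → ℕ) :
    md s (fun y => f y - g y) x h = md s f x h - md s g x h := by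
  unfold md
  rw [← Finset.sum_sub_distrib]
  refine Finset.sum_congr rfl fun A _ => by ring

theorem md_smul (s : Finset ι) (c : ℝ) (f : ℕ → ℝ) (x : ℕ) (h : ι → ℕ) :
    md s (fun y => c * f y) x h = c * md s f x h := by
  unfold md
  rw [Finset.mul_sum]
  refine Finset.sum_congr rfl fun A _ => by ring

theorem md_sum {κ : Type*} (s : Finset ι) (r : Finset κ) (f : κ → ℕ → ℝ) (x : ℕ) (h : ι → ℕ) :
    md s (fun y => ∑ i ∈ r, f i y) x h = ∑ i ∈ r, md s (f i) x h := by
  unfold md
  rw [Finset.sum_comm]
  refine Finset.sum_congr rfl fun A _ => by rw [Finset.mul_sum]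

theorem md_shift (s : Finset ι) (f : ℕ → ℝ) (x c : ℕ) (h : ι → ℕ) :
    md s f (x + c) h = md s (fun y => f (y + c)) x h := by
  unfold md
  refine Finset.sum_congr rfl fun A _ => ?_
  have : x + c + ∑ a ∈ A, h a = x + ∑ a ∈ A, h a + c := by ring
  rw [this]

/-- additivity in one step -/
theorem md_add [DecidableEq ι] {s : Finset ι} {i : ι} (hi : i ∈ s) (f : ℕ → ℝ) (x a b : ℕ)
    (h : ι → ℕ) : md s f x (Function.update h i (a + b)) =
      md s f x (Function.update h i a) + md s f (x + a) (Function.update h i b) := by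
  obtain ⟨s', hs', rfl⟩ : ∃ s', i ∉ s' ∧ insert i s' = s :=
    ⟨s.erase i, Finset.notMem_erase i s, Finset.insert_erase hi⟩
  have hc : ∀ (y c : ℕ), md s' f y (Function.update h i c) = md s' f y h := by
    intro y c
    refine md_congr f y fun j hj => ?_
    rw [Function.update_of_ne]
    rintro rfl
    exact hs' hj
  rw [md_insert hs', md_insert hs', md_insert hs']
  simp only [hc, Function.update_self]
  have : x + (a + b) = x + a + b := by ring
  rw [this]
  ring

/-- mixed differences of monomials -/
theorem md_pow [DecidableEq ι] (s : Finset ι) : ∀ j ≤ s.card, ∀ (x : ℕ) (h : ι → ℕ),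
    md s (fun y => (y : ℝ) ^ j) x h =
      if j = s.card then (-1) ^ j * (j.factorial : ℝ) * ∏ i ∈ s, (h i : ℝ) else 0 := by
  induction s using Finset.induction_on with
  | empty =>
    intro j hj x h
    have : j = 0 := by simpa using hj
    subst this
    simp [md_empty]
  | insert a s ha ih =>
    intro j hj x h
    rw [md_insert ha, md_shift, ← md_sub]
    have hf : (fun y : ℕ => ((y : ℝ) ^ j - ((y + h a : ℕ) : ℝ) ^ j)) =
        fun y : ℕ => ∑ i ∈ range j, (-(j.choose i : ℝ) * (h a : ℝ) ^ (j - i)) * (y : ℝ) ^ i := by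
      funext y
      push_cast
      rw [add_pow, Finset.sum_range_succ]
      simp only [Nat.sub_self, pow_zero, mul_one, Nat.choose_self, Nat.cast_one]
      rw [sub_add_eq_sub_sub_swap, sub_self, zero_sub, ← Finset.sum_neg_distrib]
      refine Finset.sum_congr rfl fun i _ => by ring
    rw [hf, md_sum]
    rw [Finset.card_insert_of_notMem ha] at hj
    have hz : ∀ i ∈ range j, md s (fun y : ℕ => (-(j.choose i : ℝ) * (h a : ℝ) ^ (j - i)) *
        (y : ℝ) ^ i) x h = if i = s.card then (-(j.choose i : ℝ) * (h a : ℝ) ^ (j - i)) *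
          ((-1) ^ i * (i.factorial : ℝ) * ∏ i ∈ s, (h i : ℝ)) else 0 := by
      intro i hi
      rw [md_smul, ih i (by rw [Finset.mem_range] at hi; omega)]
      split_ifs <;> ring
    rw [Finset.sum_congr rfl hz, Finset.card_insert_of_notMem ha]
    by_cases hj' : j = s.card + 1
    · rw [if_pos hj', hj', Finset.sum_ite_eq' (range (s.card + 1)) s.card,
        if_pos (Finset.self_mem_range_succ _)]
      rw [Nat.choose_succ_self_right, Finset.prod_insert ha, Nat.factorial_succ]
      have : s.card + 1 - s.card = 1 := by omega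
      rw [this]
      push_cast
      ring
    · rw [if_neg hj']
      refine Finset.sum_eq_zero fun i hi => ?_
      rw [if_neg]
      rw [Finset.mem_range] at hi
      omega

end basic

/-! ### approximately additive functions -/

theorem wh_add1 (a : ℕ → ℝ) (N : ℕ) (hN : 1 ≤ N) (δ : ℝ) (hδ : 0 ≤ δ)
    (ha : ∀ u v, u + v ≤ N → |a (u + v) - a u - a v| ≤ δ) :
    ∀ u ≤ N, |a u - (u / N : ℝ) * a N| ≤ 3 * δ := by
  have hN0 : (0 : ℝ) < N := by exact_mod_cast hN
  obtain ⟨g, hg⟩ : ∃ g : ℕ → ℝ, g = fun u => a u - (u / N : ℝ) * a N := ⟨_, rfl⟩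
  have hgN : g N = 0 := by rw [hg]; simp only; rw [div_self hN0.ne']; ring
  have hgadd : ∀ u v, u + v ≤ N → |g (u + v) - g u - g v| ≤ δ := by
    intro u v huv
    have : g (u + v) - g u - g v = a (u + v) - a u - a v := by
      rw [hg]; simp only; push_cast; ring
    rw [this]; exact ha u v huv
  obtain ⟨u0, hu0, hmax⟩ := Finset.exists_max_image (range (N + 1)) (fun u => |g u|)
    ⟨0, by simp⟩
  have hS : ∀ u ≤ N, |g u| ≤ |g u0| := fun u hu => hmax u (by simp; omega)
  have half : ∀ u, 2 * u ≤ N → |g u| ≤ (|g u0| + δ) / 2 := by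
    intro u hu
    have h1 := hgadd u u (by omega)
    have h2 := hS (u + u) (by omega)
    have h3 : 2 * |g u| = |2 * g u| := by rw [abs_mul]; norm_num
    have h4 : |2 * g u| ≤ |g (u + u)| + |g (u + u) - g u - g u| := by
      have : 2 * g u = g (u + u) - (g (u + u) - g u - g u) := by ring
      rw [this]; exact abs_sub _ _
    linarith
  have all : ∀ u ≤ N, |g u| ≤ (|g u0| + δ) / 2 + δ := by
    intro u hu
    by_cases h : 2 * u ≤ N
    · linarith [half u h]
    · have h1 := hgadd u (N - u) (by omega)
      have h2 := half (N - u) (by omega)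
      rw [Nat.add_sub_cancel' hu, hgN] at h1
      have h3 : |g u| ≤ |0 - g u - g (N - u)| + |g (N - u)| := by
        have : g u = -(0 - g u - g (N - u)) - g (N - u) := by ring
        calc |g u| = |-(0 - g u - g (N - u)) - g (N - u)| := by rw [← this]
          _ ≤ |-(0 - g u - g (N - u))| + |g (N - u)| := abs_sub _ _
          _ = _ := by rw [abs_neg]
      linarith
  have hfin := all u0 (by simp at hu0; omega)
  intro u hu
  have h5 := hS u hu
  rw [hg] at h5 hfin
  simp only at h5 hfin
  linarith

/-! ### splitting large steps -/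

section

variable {ι : Type*} [DecidableEq ι]

/-- one large step -/
theorem wh_split1 (s : Finset ι) (i : ι) (hi : i ∈ s) (f : ℕ → ℝ) (N L : ℕ) (Q : (ι → ℕ) → Prop)
    (hQ : ∀ u a, Q u → Q (Function.update u i a)) (δ : ℝ)
    (h : ∀ x u, Q u → u i ≤ L → x + ∑ j ∈ s, u j ≤ N → |md s f x u| ≤ δ) (K : ℕ) :
    ∀ x u, Q u → u i ≤ (K + 1) * L → x + ∑ j ∈ s, u j ≤ N →
      |md s f x u| ≤ (K + 1) * δ := by
  induction K with
  | zero =>
    intro x u hu hi' hx
    have := h x u hu (by simpa using hi') hx
    simpa using this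
  | succ K ih =>
    intro x u hu hi' hx
    have hsum : ∀ a, ∑ j ∈ s, Function.update u i a j = a + ∑ j ∈ s \ {i}, u j := by
      intro a
      rw [Finset.sum_update_of_mem hi]
    have hsum' : ∑ j ∈ s, u j = u i + ∑ j ∈ s \ {i}, u j := by
      have := hsum (u i)
      rwa [Function.update_eq_self] at this
    by_cases hL : u i ≤ L
    · have h1 := h x u hu hL hx
      have h0 : 0 ≤ δ := le_trans (abs_nonneg _) h1
      push_cast
      have : 0 ≤ (K : ℝ) := Nat.cast_nonneg K
      nlinarith
    · have h2 := md_add hi f x L (u i - L) u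
      rw [show L + (u i - L) = u i by omega, Function.update_eq_self] at h2
      have h3 := h x (Function.update u i L) (hQ _ _ hu) (by simp) (by
        rw [hsum]; omega)
      have h4 := ih (x + L) (Function.update u i (u i - L)) (hQ _ _ hu) (by
        simp only [Function.update_self]
        have : (K + 1 + 1) * L = (K + 1) * L + L := by ring
        omega) (by rw [hsum]; omega)
      rw [h2]
      refine le_trans (abs_add_le _ _) ?_
      push_cast
      linarith

/-- all steps may be large -/
theorem wh_split (s : Finset ι) (f : ℕ → ℝ) (N L K : ℕ) (δ : ℝ) 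
    (h : ∀ x u, (∀ i ∈ s, u i ≤ L) → x + ∑ j ∈ s, u j ≤ N → |md s f x u| ≤ δ) :
    ∀ x u, (∀ i ∈ s, u i ≤ (K + 1) * L) → x + ∑ j ∈ s, u j ≤ N →
      |md s f x u| ≤ ((K : ℝ) + 1) ^ s.card * δ := by
  have key : ∀ s' : Finset ι, s' ⊆ s → ∀ x u, (∀ i ∈ s', u i ≤ (K + 1) * L) →
      (∀ i ∈ s \ s', u i ≤ L) → x + ∑ j ∈ s, u j ≤ N →
      |md s f x u| ≤ ((K : ℝ) + 1) ^ s'.card * δ := by
    intro s'
    induction s' using Finset.induction_on with
    | empty =>
      intro _ x u _ h2 h3
      simpa using h x u (by simpa using h2) h3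
    | insert i s' hi ih =>
      intro hss x u h1 h2 h3
      have his : i ∈ s := hss (Finset.mem_insert_self i s')
      have hs' : s' ⊆ s := fun j hj => hss (Finset.mem_insert_of_mem hj)
      have := wh_split1 s i his f N L (fun u => (∀ j ∈ s', u j ≤ (K + 1) * L) ∧
        (∀ j ∈ s \ insert i s', u j ≤ L)) (by
          rintro u a ⟨ha, hb⟩
          refine ⟨fun j hj => ?_, fun j hj => ?_⟩
          · rw [Function.update_of_ne (by rintro rfl; exact hi hj)]
            exact ha j hj
          · rw [Function.update_of_ne (by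
              rintro rfl; simp at hj)]
            exact hb j hj) (((K : ℝ) + 1) ^ s'.card * δ) (by
          rintro x u ⟨ha, hb⟩ hL hx
          refine ih hs' x u ha (fun j hj => ?_) hx
          by_cases hji : j = i
          · rw [hji]; exact hL
          · exact hb j (by
              simp only [Finset.mem_sdiff, Finset.mem_insert] at hj ⊢
              tauto)) K x u ⟨fun j hj => h1 j (Finset.mem_insert_of_mem hj), h2⟩
          (h1 i (Finset.mem_insert_self i s')) h3
      rw [Finset.card_insert_of_notMem hi, pow_succ]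
      calc |md s f x u| ≤ (K + 1) * (((K : ℝ) + 1) ^ s'.card * δ) := this
        _ = _ := by ring
  intro x u h1 h2
  exact key s subset_rfl x u h1 (by simp) h2

/-- approximately multiadditive functions are close to products -/
theorem wh_multi (s : Finset ι) (M : (ι → ℕ) → ℝ) (L : ℕ) (hL : 1 ≤ L) (δ : ℝ) (hδ : 0 ≤ δ)
    (hM : ∀ u, (∀ i ∈ s, u i ≤ L) → ∀ i ∈ s, ∀ a b, a + b ≤ L →
      |M (Function.update u i (a + b)) - M (Function.update u i a) -
        M (Function.update u i b)| ≤ δ)
    (hMc : ∀ u u', (∀ i ∈ s, u i = u' i) → M u = M u') :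
    ∀ u, (∀ i ∈ s, u i ≤ L) →
      |M u - (∏ i ∈ s, (u i / L : ℝ)) * M (fun _ => L)| ≤ 3 * s.card * δ := by
  have hL0 : (0 : ℝ) < L := by exact_mod_cast hL
  intro u hu
  have key : ∀ s' : Finset ι, s' ⊆ s →
      |M u - (∏ i ∈ s', (u i / L : ℝ)) * M (fun i => if i ∈ s' then L else u i)| ≤
        3 * s'.card * δ := by
    intro s'
    induction s' using Finset.induction_on with
    | empty => intro _; simp
    | insert i s' hi ih =>
      intro hss
      have his : i ∈ s := hss (Finset.mem_insert_self i s')
      have hs' : s' ⊆ s := fun j hj => hss (Finset.mem_insert_of_mem hj)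
      have h1 := ih hs'
      have h2 := wh_add1 (fun a => M (Function.update (fun i => if i ∈ s' then L else u i) i a)) L
        hL δ hδ (fun a b hab => hM _ (by
          intro j hj
          by_cases hjs : j ∈ s'
          · simp [hjs]
          · simp only [hjs, if_false]; exact hu j hj) i his a b hab) (u i) (hu i his)
      have e1 : Function.update (fun i => if i ∈ s' then L else u i) i (u i) =
          fun i => if i ∈ s' then L else u i := by
        funext j
        by_cases hj : j = i
        · subst hj; simp [hi]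
        · rw [Function.update_of_ne hj]
      have e2 : Function.update (fun i => if i ∈ s' then L else u i) i L =
          fun j => if j ∈ insert i s' then L else u j := by
        funext j
        by_cases hj : j = i
        · subst hj; simp
        · rw [Function.update_of_ne hj]
          simp [hj]
      simp only [e1, e2] at h2
      rw [Finset.prod_insert hi, Finset.card_insert_of_notMem hi]
      have hp : |∏ i ∈ s', (u i / L : ℝ)| ≤ 1 := by
        rw [Finset.abs_prod]
        refine Finset.prod_le_one (fun _ _ => abs_nonneg _) fun j hj => ?_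
        rw [abs_of_nonneg (by positivity), div_le_one hL0]
        exact_mod_cast hu j (hs' hj)
      have h3 : M u - (u i / L * ∏ i ∈ s', (u i / L : ℝ)) *
            M (fun j => if j ∈ insert i s' then L else u j) =
          (M u - (∏ i ∈ s', (u i / L : ℝ)) * M (fun i => if i ∈ s' then L else u i)) +
          (∏ i ∈ s', (u i / L : ℝ)) * (M (fun i => if i ∈ s' then L else u i) -
            (u i / L) * M (fun j => if j ∈ insert i s' then L else u j)) := by ring
      rw [h3]
      refine le_trans (abs_add_le _ _) ?_
      rw [abs_mul]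
      have h4 : |∏ i ∈ s', (u i / L : ℝ)| * |M (fun i => if i ∈ s' then L else u i) -
            (u i / L) * M (fun j => if j ∈ insert i s' then L else u j)| ≤ 1 * (3 * δ) :=
        mul_le_mul hp h2 (abs_nonneg _) zero_le_one
      push_cast
      linarith
  have := key s subset_rfl
  have e : M (fun i => if i ∈ s then L else u i) = M (fun _ => L) :=
    hMc _ _ fun i hi => by simp [hi]
  rwa [e] at this

end

/-- discrete Whitney inequality -/
theorem whitney (k : ℕ) : ∃ C : ℝ, 1 ≤ C ∧ ∀ (N : ℕ) (F : ℕ → ℝ) (δ : ℝ), 0 ≤ δ →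
    (∀ x (u : ℕ → ℕ), x + ∑ i ∈ range (k + 1), u i ≤ N → |md (range (k + 1)) F x u| ≤ δ) →
    ∃ P : Polynomial ℝ, P.natDegree ≤ k ∧ ∀ x ≤ N, |F x - P.eval (x : ℝ)| ≤ C * δ := by
  induction k with
  | zero =>
    refine ⟨1, le_rfl, fun N F δ _ h => ⟨Polynomial.C (F 0), by simp, fun x hx => ?_⟩⟩
    have h1 := h 0 (fun _ => x) (by simpa using hx)
    rw [show range (0 + 1) = insert 0 ∅ by rfl, md_insert (by simp), md_empty, md_empty] at h1
    rw [Polynomial.eval_C, one_mul, abs_sub_comm]
    simpa using h1
  | succ k ih =>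
    obtain ⟨C, hC, ihC⟩ := ih
    obtain ⟨D, hD⟩ : ∃ D : ℝ, D = (((2 * k + 1 : ℕ) : ℝ) + 1) ^ (k + 1) * (3 * (k + 1) + 1) :=
      ⟨_, rfl⟩
    have hD1 : 1 ≤ D := by
      rw [hD]
      have h1 : (1 : ℝ) ≤ (((2 * k + 1 : ℕ) : ℝ) + 1) ^ (k + 1) :=
        one_le_pow₀ (by have : (0 : ℝ) ≤ ((2 * k + 1 : ℕ) : ℝ) := Nat.cast_nonneg _; linarith)
      have h2 : (1 : ℝ) ≤ 3 * (k + 1) + 1 := by
        have : (0 : ℝ) ≤ (k : ℝ) := Nat.cast_nonneg _
        linarith
      nlinarith
    refine ⟨C * D, by nlinarith, fun N F δ hδ h => ?_⟩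
    obtain ⟨L, hLdef⟩ : ∃ L, L = N / (k + 1) := ⟨_, rfl⟩
    have hLN : (k + 1) * L ≤ N := by rw [hLdef]; exact Nat.mul_div_le N (k + 1)
    have hNL : N < (k + 1) * (L + 1) := by
      rw [hLdef]; exact Nat.lt_mul_div_succ N (Nat.succ_pos k)
    by_cases hL0 : L = 0
    · -- few points
      rw [hL0] at hNL
      have hN : N ≤ k := by simp only [zero_add, mul_one] at hNL; omega
      have hinj : Set.InjOn (fun i : ℕ => (i : ℝ)) (range (N + 1) : Set ℕ) :=
        fun a _ b _ hab => Nat.cast_injective hab
      refine ⟨Lagrange.interpolate (range (N + 1)) (fun i : ℕ => (i : ℝ)) F, ?_, ?_⟩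
      · have h1 : (Lagrange.interpolate (range (N + 1)) (fun i : ℕ => (i : ℝ)) F).degree ≤
            ((N + 1 - 1 : ℕ) : WithBot ℕ) := by
          have := Lagrange.degree_interpolate_le (s := range (N + 1))
            (v := fun i : ℕ => (i : ℝ)) F hinj
          simpa using this
        have h2 := Polynomial.natDegree_le_iff_degree_le.2 h1
        omega
      · intro x hx
        have h1 := Lagrange.eval_interpolate_at_node (s := range (N + 1))
          (v := fun i : ℕ => (i : ℝ)) F hinj (i := x) (by simp; omega)
        rw [h1, sub_self, abs_zero]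
        have : 0 ≤ C * D := by nlinarith
        exact mul_nonneg this hδ
    · have hL1 : 1 ≤ L := by omega
      obtain ⟨M, hMdef⟩ : ∃ M : (ℕ → ℕ) → ℝ, M = fun u => md (range (k + 1)) F 0 u := ⟨_, rfl⟩
      have h1 : ∀ x (u : ℕ → ℕ), x + ∑ i ∈ range (k + 1), u i ≤ N →
          |md (range (k + 1)) F x u - md (range (k + 1)) F 0 u| ≤ δ := by
        intro x u hx
        have h2 := h 0 (Function.update u (k + 1) x) (by
          rw [Finset.sum_range_succ, Function.update_self, zero_add]
          have : ∑ i ∈ range (k + 1), Function.update u (k + 1) x i =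
              ∑ i ∈ range (k + 1), u i := Finset.sum_congr rfl fun i hi => by
            rw [Function.update_of_ne]
            rw [Finset.mem_range] at hi; omega
          rw [this]; omega)
        rw [Finset.range_add_one, md_insert (by simp), Function.update_self, zero_add] at h2
        have hc : ∀ y, md (range (k + 1)) F y (Function.update u (k + 1) x) =
            md (range (k + 1)) F y u := fun y => md_congr F y fun i hi => by
          rw [Function.update_of_ne]
          rw [Finset.mem_range] at hi; omega
        rw [hc, hc, abs_sub_comm] at h2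
        exact h2
      have hcard : ∀ u : ℕ → ℕ, (∀ i ∈ range (k + 1), u i ≤ L) → ∀ i ∈ range (k + 1),
          ∀ a b, a + b ≤ L → a + ∑ j ∈ range (k + 1), Function.update u i b j ≤ N := by
        intro u hu i hi a b hab
        rw [Finset.sum_update_of_mem hi]
        have h3 : ∑ j ∈ range (k + 1) \ {i}, u j ≤ (range (k + 1) \ {i}).card * L := by
          refine Finset.sum_le_card_nsmul _ _ _ fun j hj => hu j ?_
          exact (Finset.mem_sdiff.1 hj).1
        have h4 : (range (k + 1) \ {i}).card = k := by
          rw [Finset.card_sdiff_of_subset (by simpa using hi)]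
          simp
        rw [h4] at h3
        have : (k + 1) * L = k * L + L := by ring
        omega
      have h2 := wh_multi (range (k + 1)) M L hL1 δ hδ (by
        intro u hu i hi a b hab
        rw [hMdef]
        simp only
        have h3 := h1 a (Function.update u i b) (hcard u hu i hi a b hab)
        have h4 := md_add hi F 0 a b u
        rw [zero_add] at h4
        rw [h4]
        have e : md (range (k + 1)) F 0 (Function.update u i a) +
            md (range (k + 1)) F a (Function.update u i b) -
            md (range (k + 1)) F 0 (Function.update u i a) -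
            md (range (k + 1)) F 0 (Function.update u i b) =
            md (range (k + 1)) F a (Function.update u i b) -
            md (range (k + 1)) F 0 (Function.update u i b) := by ring
        rw [e]; exact h3) (by
        intro u u' huu
        rw [hMdef]
        exact md_congr F 0 huu)
      have hLr : (0 : ℝ) < L := by exact_mod_cast hL1
      obtain ⟨c, hc⟩ : ∃ c : ℝ, c = M (fun _ => L) / (L : ℝ) ^ (k + 1) *
          ((-1) ^ (k + 1) / ((k + 1).factorial : ℝ)) := ⟨_, rfl⟩
      have hpow : ∀ x (u : ℕ → ℕ), md (range (k + 1)) (fun y => c * (y : ℝ) ^ (k + 1)) x u =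
          (∏ i ∈ range (k + 1), (u i / L : ℝ)) * M (fun _ => L) := by
        intro x u
        rw [md_smul, md_pow (range (k + 1)) (k + 1) (by simp), if_pos (by simp), hc,
          Finset.prod_div_distrib]
        simp only [Finset.prod_const, Finset.card_range]
        have h5 : ((-1 : ℝ) ^ (k + 1)) * (-1) ^ (k + 1) = 1 := by
          rw [← mul_pow]; norm_num
        have h6 : ((k + 1).factorial : ℝ) ≠ 0 := by positivity
        have h7 : (L : ℝ) ^ (k + 1) ≠ 0 := by positivity
        field_simp
        linear_combination (M (fun _ => L) * ∏ i ∈ range (k + 1), (u i : ℝ)) * h5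
      obtain ⟨G, hG⟩ : ∃ G : ℕ → ℝ, G = fun y => F y - c * (y : ℝ) ^ (k + 1) := ⟨_, rfl⟩
      have h3 : ∀ x (u : ℕ → ℕ), (∀ i ∈ range (k + 1), u i ≤ L) →
          x + ∑ i ∈ range (k + 1), u i ≤ N →
          |md (range (k + 1)) G x u| ≤ (3 * (k + 1) + 1) * δ := by
        intro x u hu hx
        rw [hG, md_sub, hpow]
        have h4 := h1 x u hx
        have h5 := h2 u hu
        rw [Finset.card_range] at h5
        push_cast at h5
        rw [hMdef] at h5 ⊢
        simp only at h5 ⊢
        have e : md (range (k + 1)) F x u - (∏ i ∈ range (k + 1), (u i / L : ℝ)) *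
            md (range (k + 1)) F 0 (fun _ => L) = (md (range (k + 1)) F x u -
            md (range (k + 1)) F 0 u) + (md (range (k + 1)) F 0 u -
            (∏ i ∈ range (k + 1), (u i / L : ℝ)) * md (range (k + 1)) F 0 (fun _ => L)) := by
          ring
        rw [e]
        refine le_trans (abs_add_le _ _) ?_
        linarith
      have h4 := wh_split (range (k + 1)) G N L (2 * k + 1) ((3 * (k + 1) + 1) * δ) h3
      have h5 : ∀ x (u : ℕ → ℕ), x + ∑ i ∈ range (k + 1), u i ≤ N →
          |md (range (k + 1)) G x u| ≤ D * δ := by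
        intro x u hx
        have h6 := h4 x u (by
          intro i hi
          have h7 : u i ≤ ∑ j ∈ range (k + 1), u j :=
            Finset.single_le_sum (f := fun j => u j) (fun _ _ => Nat.zero_le _) hi
          have h8 : (2 * k + 1 + 1) * L = (k + 1) * L + (k + 1) * L := by ring
          have h9 : (k + 1) * (L + 1) = (k + 1) * L + (k + 1) := by ring
          have h10 : (k + 1) ≤ (k + 1) * L := Nat.le_mul_of_pos_right _ (by omega)
          omega) hx
        rw [Finset.card_range] at h6
        rw [hD]
        calc _ ≤ _ := h6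
          _ = _ := by ring
      obtain ⟨P, hP1, hP2⟩ := ihC N G (D * δ) (by positivity) h5
      refine ⟨P + Polynomial.C c * Polynomial.X ^ (k + 1), ?_, fun x hx => ?_⟩
      · refine le_trans (Polynomial.natDegree_add_le _ _) (max_le (by omega) ?_)
        exact Polynomial.natDegree_C_mul_X_pow_le c (k + 1)
      · have h6 := hP2 x hx
        rw [hG] at h6
        simp only at h6
        have e : F x - (P + Polynomial.C c * Polynomial.X ^ (k + 1)).eval (x : ℝ) =
            F x - c * (x : ℝ) ^ (k + 1) - P.eval (x : ℝ) := by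
          simp only [Polynomial.eval_add, Polynomial.eval_mul, Polynomial.eval_C,
            Polynomial.eval_pow, Polynomial.eval_X]
          ring
        rw [e, mul_assoc]
        exact h6

end Pool.Agent.Helper30.RSK
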